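import Pool.Agent.H.MP_4f0cf1_nt.C

namespace Pool.Agent.Results.MP_4f0cf1_nt.Yes

open NumberField Pool.Agent.H.MP_4f0cf1_nt

/-- The matrix `M_p`; row `j` and column `k` of `Fin n` stand for `j + 1` and `k + 1`. -/
def M (p : ℕ) [Fact p.Prime] : Matrix (Fin ((p - 1) / 2)) (Fin ((p - 1) / 2)) ℤ :=
  Matrix.of fun j k => legendreSym p (((j : ℕ) + 1) + ((k : ℕ) + 1)) +
    legendreSym p (((j : ℕ) + 1) - ((k : ℕ) + 1)) + legendreSym p (((j : ℕ) + 1) * ((k : ℕ) + 1))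

theorem result (p : ℕ) [Fact p.Prime] (hp : 3 < p) :
    (p % 4 = 1 → (M p).det = legendreSym p 2 * p ^ ((p - 5) / 4)) ∧
    (p % 4 = 3 → ∀ (K : Type) [Field K] [NumberField K], Module.finrank ℚ K = 2 →
      ∀ s : K, s ^ 2 = -p → (M p).det = (-1) ^ ((classNumber K - 1) / 2) *
        (1 - (2 - legendreSym p 2) * classNumber K) * p ^ ((p - 3) / 4)) := by
  have ho := (Fact.out : p.Prime).eq_two_or_odd.resolve_left (by omega)
  have h1 : p = 2 * ((p - 1) / 2) + 1 := by omega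
  have h2 : (M p).det = _ := .trans (congrArg _ (by ext j k; simp [M, c, e, legendreSym]))
    (first (R := ℤ) h1)
  refine ⟨fun h => by rw [h2, sum_one h1 h, det_one' h1 h, sub_zero, mul_one],
    fun h K _ _ hK s hs => ?_⟩
  obtain ⟨a1, -, a2⟩ := det_h (R := ℤ) h1 h hp hK hs
  rw [h2, a1, a2, mul_right_comm]
  simp [c, legendreSym]

end Pool.Agent.Results.MP_4f0cf1_nt.Yes
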